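import Mathlib

/-! Signed abc triples, their heights and radicals, and chains of maps of triples. -/

set_option autoImplicit false

namespace Pool.Agent.T2H21.NE

/-- the radical -/
def R (m : ℕ) : ℕ := ∏ p ∈ m.primeFactors, p

theorem R_pos (m : ℕ) : 0 < R m :=
  Finset.prod_pos fun _ hp => (Nat.prime_of_mem_primeFactors hp).pos

theorem R_le {m : ℕ} (h : 0 < m) : R m ≤ m :=
  Nat.le_of_dvd h (Nat.prod_primeFactors_dvd m)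

theorem R_mul_le (m n : ℕ) : R (m * n) ≤ R m * R n := by
  rcases Nat.eq_zero_or_pos m with hm | hm
  · subst hm
    rw [zero_mul]
    have : R 0 = 1 := by simp [R]
    rw [this, one_mul]
    exact R_pos n
  rcases Nat.eq_zero_or_pos n with hn | hn
  · subst hn
    rw [mul_zero]
    have : R 0 = 1 := by simp [R]
    rw [this, mul_one]
    exact R_pos m
  unfold R
  rw [Nat.primeFactors_mul hm.ne' hn.ne', ← Finset.prod_union_inter]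
  refine Nat.le_mul_of_pos_right _ (Finset.prod_pos fun p hp => ?_)
  exact (Nat.prime_of_mem_primeFactors (Finset.mem_inter.1 hp).1).pos

theorem R_pow_le (m k : ℕ) : R (m ^ k) ≤ R m := by
  rcases Nat.eq_zero_or_pos k with hk | hk
  · subst hk
    rw [pow_zero]
    have : R 1 = 1 := by simp [R]
    rw [this]
    exact R_pos m
  · unfold R
    rw [Nat.primeFactors_pow _ hk.ne']

/-- the height -/
def ht (T : ℤ × ℤ × ℤ) : ℕ := max T.1.natAbs (max T.2.1.natAbs T.2.2.natAbs)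

/-- the radical of the product -/
def rad (T : ℤ × ℤ × ℤ) : ℕ := R (T.1 * T.2.1 * T.2.2).natAbs

/-- signed abc triples -/
def Good (T : ℤ × ℤ × ℤ) : Prop :=
  T.1 ≠ 0 ∧ T.2.1 ≠ 0 ∧ T.2.2 ≠ 0 ∧ T.1 + T.2.1 = T.2.2 ∧ IsCoprime T.1 T.2.1

theorem rad_pos (T : ℤ × ℤ × ℤ) : 0 < rad T := R_pos _

theorem ht_pos {T : ℤ × ℤ × ℤ} (h : Good T) : 0 < ht T := by
  have : 0 < T.1.natAbs := Int.natAbs_pos.2 h.1
  exact lt_of_lt_of_le this (le_max_left _ _)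

/-- the effect of a map of degree `E + 1` on heights and radicals -/
def Step (E : ℕ) (K : ℝ) (T T' : ℤ × ℤ × ℤ) : Prop :=
  (ht T : ℝ) ^ (E + 1) ≤ K * ht T' ∧ (ht T' : ℝ) ≤ K * (ht T : ℝ) ^ (E + 1) ∧
    (rad T' : ℝ) ≤ K * (rad T * (ht T : ℝ) ^ E)

theorem Step.comp {E₁ E₂ : ℕ} {K₁ K₂ : ℝ} {T T' T'' : ℤ × ℤ × ℤ} (hK₁ : 1 ≤ K₁) (hK₂ : 1 ≤ K₂)
    (h₁ : Step E₁ K₁ T T') (h₂ : Step E₂ K₂ T' T'') :
    Step (E₁ * E₂ + E₁ + E₂) (K₁ ^ (E₂ + 1) * K₂) T T'' := by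
  obtain ⟨a1, a2, a3⟩ := h₁
  obtain ⟨b1, b2, b3⟩ := h₂
  have hh : (0 : ℝ) ≤ ht T := Nat.cast_nonneg _
  have hh' : (0 : ℝ) ≤ ht T' := Nat.cast_nonneg _
  have hr : (0 : ℝ) ≤ rad T := Nat.cast_nonneg _
  have hr' : (0 : ℝ) ≤ rad T' := Nat.cast_nonneg _
  have hE : E₁ * E₂ + E₁ + E₂ + 1 = (E₁ + 1) * (E₂ + 1) := by ring
  have hp : (0 : ℝ) ≤ K₁ ^ (E₂ + 1) := by positivity
  refine ⟨?_, ?_, ?_⟩
  · rw [hE, pow_mul]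
    calc ((ht T : ℝ) ^ (E₁ + 1)) ^ (E₂ + 1) ≤ (K₁ * ht T') ^ (E₂ + 1) := by gcongr
      _ = K₁ ^ (E₂ + 1) * (ht T' : ℝ) ^ (E₂ + 1) := by rw [mul_pow]
      _ ≤ K₁ ^ (E₂ + 1) * (K₂ * ht T'') := by gcongr
      _ = _ := by ring
  · rw [hE, pow_mul]
    calc (ht T'' : ℝ) ≤ K₂ * (ht T' : ℝ) ^ (E₂ + 1) := b2
      _ ≤ K₂ * (K₁ * (ht T : ℝ) ^ (E₁ + 1)) ^ (E₂ + 1) := by gcongr
      _ = _ := by rw [mul_pow]; ring
  · calc (rad T'' : ℝ) ≤ K₂ * (rad T' * (ht T' : ℝ) ^ E₂) := b3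
      _ ≤ K₂ * ((K₁ * (rad T * (ht T : ℝ) ^ E₁)) * (K₁ * (ht T : ℝ) ^ (E₁ + 1)) ^ E₂) := by gcongr
      _ = K₁ ^ (E₂ + 1) * K₂ * (rad T * (ht T : ℝ) ^ (E₁ * E₂ + E₁ + E₂)) := by
          rw [mul_pow, ← pow_mul, show E₁ * E₂ + E₁ + E₂ = E₁ + (E₁ + 1) * E₂ by ring]
          ring

/-- **Chains.** -/
theorem chain (Init : ℤ × ℤ × ℤ → Prop) (Fam : ℤ → ℤ × ℤ × ℤ → Prop) (s E₀ n : ℕ) (K₀ K₁ : ℝ)
    (hK₀ : 1 ≤ K₀) (hK₁ : 1 ≤ K₁)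
    (base : ∀ T, Init T → ∃ e T', Fam e T' ∧ |(e : ℝ)| ≤ K₀ * (ht T : ℝ) ^ s ∧ Step E₀ K₀ T T')
    (step : ∀ e T, Fam e T → ∃ e' T', Fam e' T' ∧ |(e' : ℝ)| ≤ K₁ * |(e : ℝ)| ∧ Step n K₁ T T') :
    ∀ k : ℕ, ∃ (E : ℕ) (K : ℝ), (n + 1) ^ k ≤ E + 1 ∧ 1 ≤ K ∧ ∀ T, Init T →
      ∃ e T', Fam e T' ∧ |(e : ℝ)| ≤ K * (ht T : ℝ) ^ s ∧ Step E K T T' := by
  intro k
  induction k with
  | zero => exact ⟨E₀, K₀, by simp, hK₀, base⟩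
  | succ k ih =>
    obtain ⟨E, K, h1, h2, h3⟩ := ih
    have hK' : (1 : ℝ) ≤ K ^ (n + 1) := one_le_pow₀ h2
    refine ⟨E * n + E + n, K ^ (n + 1) * K₁, ?_, ?_, ?_⟩
    · rw [show E * n + E + n + 1 = (E + 1) * (n + 1) by ring, pow_succ]
      exact Nat.mul_le_mul_right _ h1
    · nlinarith
    · intro T hT
      obtain ⟨e, T', hF, he, hS⟩ := h3 T hT
      obtain ⟨e', T'', hF', he', hS'⟩ := step e T' hF
      refine ⟨e', T'', hF', ?_, hS.comp h2 hK₁ hS'⟩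
      have hh : (0 : ℝ) ≤ (ht T : ℝ) ^ s := by positivity
      have hKK : K ≤ K ^ (n + 1) := le_self_pow₀ h2 (by omega)
      calc |(e' : ℝ)| ≤ K₁ * |(e : ℝ)| := he'
        _ ≤ K₁ * (K * (ht T : ℝ) ^ s) := by gcongr
        _ ≤ K₁ * (K ^ (n + 1) * (ht T : ℝ) ^ s) := by gcongr
        _ = _ := by ring

end Pool.Agent.T2H21.NE
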