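import Pool.Agent.T2H21.NE.Maps2

/-! The three families of triples and the transfer of the inequality. -/

set_option autoImplicit false

namespace Pool.Agent.T2H21.NE

/-- the triples we start from -/
def Init (T : ℤ × ℤ × ℤ) : Prop := Good T ∧ Odd T.2.2

/-- `x ^ 4, e y ^ 4, z ^ 2` -/
def Fam44 (e : ℤ) (T : ℤ × ℤ × ℤ) : Prop :=
  (Good T ∧ Odd T.2.2) ∧ ∃ x y z : ℤ, T.1 = x ^ 4 ∧ T.2.1 = e * y ^ 4 ∧ T.2.2 = z ^ 2

/-- `x ^ 3, e y ^ 6, z ^ 2` -/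
def Fam36 (e : ℤ) (T : ℤ × ℤ × ℤ) : Prop :=
  (Good T ∧ Odd T.1 ∧ ¬ (3 : ℤ) ∣ T.2.2) ∧
    ∃ x y z : ℤ, T.1 = x ^ 3 ∧ T.2.1 = e * y ^ 6 ∧ T.2.2 = z ^ 2

/-- `x ^ 3, y ^ 3, e z ^ 3` -/
def Fam33 (e : ℤ) (T : ℤ × ℤ × ℤ) : Prop :=
  (Good T ∧ ¬ (3 : ℤ) ∣ T.1 - T.2.1) ∧
    ∃ x y z : ℤ, T.1 = x ^ 3 ∧ T.2.1 = y ^ 3 ∧ T.2.2 = e * z ^ 3

/-! ### Signature (2, 4, 4) -/

theorem mapG_odd {T : ℤ × ℤ × ℤ} (h : Good T) (ho : Odd T.2.2) : Odd (mapG T).2.2 :=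
  (odd_sub h ho).pow

theorem base44 (T : ℤ × ℤ × ℤ) (hT : Init T) :
    ∃ e T', Fam44 e T' ∧ |(e : ℝ)| ≤ 512 * (ht T : ℝ) ^ 4 ∧ Step 3 512 T T' := by
  obtain ⟨h, ho⟩ := hT
  have g1 := mapG_good h ho
  have o1 := mapG_odd h ho
  have g2 := mapG_good g1 o1
  have o2 := mapG_odd g1 o1
  have st := (mapG_step h ho).comp (by norm_num) (by norm_num) (mapG_step g1 o1)
  norm_num at st
  refine ⟨16 * T.1 * T.2.1 * T.2.2 ^ 2, mapG (mapG T), ⟨⟨g2, o2⟩, T.1 - T.2.1, 1,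
    T.2.2 ^ 2 + 4 * T.1 * T.2.1, ?_, ?_, ?_⟩, ?_, st⟩
  · simp only [mapG]
    ring
  · simp only [mapG]
    ring
  · simp only [mapG]
    ring
  · have a1 := abs_fst_le T
    have a2 := abs_snd_le T
    have a3 := abs_thd_le T
    have hh : (0 : ℝ) ≤ ht T := Nat.cast_nonneg _
    push_cast
    rw [abs_mul, abs_mul, abs_mul, abs_pow, abs_of_pos (by norm_num : (0 : ℝ) < 16)]
    calc 16 * |(T.1 : ℝ)| * |(T.2.1 : ℝ)| * |(T.2.2 : ℝ)| ^ 2 ≤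
          16 * (ht T : ℝ) * (ht T : ℝ) * (ht T : ℝ) ^ 2 := by gcongr
      _ = 16 * (ht T : ℝ) ^ 4 := by ring
      _ ≤ _ := by
          have : (0 : ℝ) ≤ (ht T : ℝ) ^ 4 := by positivity
          linarith

theorem step44 (e : ℤ) (T : ℤ × ℤ × ℤ) (hT : Fam44 e T) :
    ∃ e' T', Fam44 e' T' ∧ |(e' : ℝ)| ≤ 8 * |(e : ℝ)| ∧ Step 1 8 T T' := by
  obtain ⟨⟨h, ho⟩, x, y, z, hx, hy, hz⟩ := hT
  refine ⟨-4 * e, mapG T, ⟨⟨mapG_good h ho, mapG_odd h ho⟩, z, x * y, T.1 - T.2.1, ?_, ?_, ?_⟩,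
    ?_, mapG_step h ho⟩
  · simp only [mapG]
    rw [hz]
    ring
  · simp only [mapG]
    rw [hx, hy]
    ring
  · simp only [mapG]
  · push_cast
    rw [abs_mul, abs_neg, abs_of_pos (by norm_num : (0 : ℝ) < 4)]
    linarith [abs_nonneg (e : ℝ)]

/-! ### Signature (2, 3, 6) -/

theorem mapF_odd {T : ℤ × ℤ × ℤ} (ho : Odd T.1) : Odd (mapF T).1 := by
  refine Odd.pow ?_
  rw [Int.odd_iff] at ho ⊢
  omega

theorem mapF_three {T : ℤ × ℤ × ℤ} (h : Good T) (h3' : ¬ (3 : ℤ) ∣ T.2.2) :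
    ¬ (3 : ℤ) ∣ (mapF T).2.2 := by
  have h4 := h.2.2.2.1
  intro hd
  simp only [mapF] at hd
  rcases Int.prime_three.dvd_or_dvd hd with hd | hd
  · exact h3' hd
  · have := Int.prime_three.dvd_of_dvd_pow hd
    apply h3'
    omega

/-- the reversed map of degree two -/
def mapH (T : ℤ × ℤ × ℤ) : ℤ × ℤ × ℤ := ((mapG T).2.2, -(mapG T).2.1, (mapG T).1)

theorem mapH_good {T : ℤ × ℤ × ℤ} (h : Good T) (ho : Odd T.2.2) : Good (mapH T) := by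
  have g := mapG_good h ho
  obtain ⟨h1, h2, h3, h4, h5⟩ := id g
  refine ⟨h3, neg_ne_zero.2 h2, h1, ?_, g.cop23.symm.neg_right⟩
  simp only [mapH]
  linarith

theorem mapH_ht (T : ℤ × ℤ × ℤ) : ht (mapH T) = ht (mapG T) := by
  simp only [mapH, ht, Int.natAbs_neg]
  omega

theorem mapH_rad (T : ℤ × ℤ × ℤ) : rad (mapH T) = rad (mapG T) := by
  simp only [mapH, rad]
  congr 1
  simp only [Int.natAbs_mul, Int.natAbs_neg]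
  ring

theorem mapH_step {T : ℤ × ℤ × ℤ} (h : Good T) (ho : Odd T.2.2) : Step 1 8 T (mapH T) := by
  have := mapG_step h ho
  unfold Step at this ⊢
  rw [mapH_ht, mapH_rad]
  exact this

theorem base36_aux (T T₁ : ℤ × ℤ × ℤ) (g1 : Good T₁) (o1 : Odd T₁.1) (d1 : ¬ (3 : ℤ) ∣ T₁.2.2)
    (st1 : Step 1 8 T T₁) (z : ℤ) (hz : T₁.2.2 = z ^ 2) :
    ∃ e T', Fam36 e T' ∧ |(e : ℝ)| ≤ 622080 * (ht T : ℝ) ^ 6 ∧ Step 5 622080 T T' := by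
  have g2 := mapF_good g1 o1 d1
  have st := st1.comp (by norm_num) (by norm_num) (mapF_step g1 o1)
  norm_num at st
  refine ⟨-27 * T₁.1 ^ 2 * T₁.2.1, mapF T₁, ⟨⟨g2, mapF_odd o1, mapF_three g1 d1⟩,
    T₁.1 + 4 * T₁.2.1, 1, z * (T₁.1 - 8 * T₁.2.1), ?_, ?_, ?_⟩, ?_, st⟩
  · simp only [mapF]
  · simp only [mapF]
    ring
  · simp only [mapF]
    rw [hz]
    ring
  · have a1 := abs_fst_le T₁
    have a2 := abs_snd_le T₁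
    have hh : (0 : ℝ) ≤ ht T₁ := Nat.cast_nonneg _
    have hh' : (0 : ℝ) ≤ ht T := Nat.cast_nonneg _
    have hb : (ht T₁ : ℝ) ≤ 8 * (ht T : ℝ) ^ 2 := st1.2.1
    push_cast
    rw [abs_mul, abs_mul, abs_pow, abs_neg, abs_of_pos (by norm_num : (0 : ℝ) < 27)]
    calc 27 * |(T₁.1 : ℝ)| ^ 2 * |(T₁.2.1 : ℝ)| ≤ 27 * (ht T₁ : ℝ) ^ 2 * (ht T₁ : ℝ) := by gcongr
      _ = 27 * (ht T₁ : ℝ) ^ 3 := by ring
      _ ≤ 27 * (8 * (ht T : ℝ) ^ 2) ^ 3 := by gcongr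
      _ = 13824 * (ht T : ℝ) ^ 6 := by ring
      _ ≤ _ := by
          have : (0 : ℝ) ≤ (ht T : ℝ) ^ 6 := by positivity
          linarith

theorem base36 (T : ℤ × ℤ × ℤ) (hT : Init T) :
    ∃ e T', Fam36 e T' ∧ |(e : ℝ)| ≤ 622080 * (ht T : ℝ) ^ 6 ∧ Step 5 622080 T T' := by
  obtain ⟨h, ho⟩ := hT
  have h4 := h.2.2.2.1
  by_cases h3 : (3 : ℤ) ∣ T.2.2
  · refine base36_aux T (mapG T) (mapG_good h ho) ho.pow ?_ (mapG_step h ho) (T.1 - T.2.1) rfl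
    intro hd
    have hd' : (3 : ℤ) ∣ T.1 - T.2.1 := Int.prime_three.dvd_of_dvd_pow hd
    have hA : (3 : ℤ) ∣ T.1 := by omega
    have := h.cop13
    have h31 := this.isUnit_of_dvd' hA h3
    exact absurd h31 (by decide)
  · refine base36_aux T (mapH T) (mapH_good h ho) ((odd_sub h ho).pow) ?_ (mapH_step h ho) T.2.2
      rfl
    intro hd
    exact h3 (Int.prime_three.dvd_of_dvd_pow hd)

theorem step36 (e : ℤ) (T : ℤ × ℤ × ℤ) (hT : Fam36 e T) :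
    ∃ e' T', Fam36 e' T' ∧ |(e' : ℝ)| ≤ 1215 * |(e : ℝ)| ∧ Step 2 1215 T T' := by
  obtain ⟨⟨h, ho, h3⟩, x, y, z, hx, hy, hz⟩ := hT
  refine ⟨-27 * e, mapF T, ⟨⟨mapF_good h ho h3, mapF_odd ho, mapF_three h h3⟩,
    T.1 + 4 * T.2.1, x * y, z * (T.1 - 8 * T.2.1), ?_, ?_, ?_⟩, ?_, mapF_step h ho⟩
  · simp only [mapF]
  · simp only [mapF]
    rw [hx, hy]
    ring
  · simp only [mapF]
    rw [hz]
    ring
  · push_cast
    rw [abs_mul, abs_neg, abs_of_pos (by norm_num : (0 : ℝ) < 27)]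
    linarith [abs_nonneg (e : ℝ)]

/-! ### Signature (3, 3, 3) -/

theorem mapG_three {T : ℤ × ℤ × ℤ} (h : Good T) : ¬ (3 : ℤ) ∣ (mapG T).1 - (mapG T).2.1 := by
  have h4 := h.2.2.2.1
  intro hd
  simp only [mapG] at hd
  rw [← h4] at hd
  have e2 : (T.1 + T.2.1) ^ 2 - -4 * T.1 * T.2.1 = (T.1 ^ 2 + T.2.1 ^ 2) +
      3 * (2 * (T.1 * T.2.1)) := by ring
  rw [e2] at hd
  have hd4 : (3 : ℤ) ∣ T.1 ^ 2 + T.2.1 ^ 2 := (Int.dvd_add_left (Dvd.intro _ rfl)).1 hd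
  have hsq : ∀ u : ℤ, u ^ 2 % 3 = 0 ∧ (3 : ℤ) ∣ u ∨ u ^ 2 % 3 = 1 := by
    intro u
    have h3 : u % 3 = 0 ∨ u % 3 = 1 ∨ u % 3 = 2 := by omega
    rw [pow_two, Int.mul_emod]
    rcases h3 with h3 | h3 | h3
    · left
      rw [h3]
      exact ⟨rfl, Int.dvd_of_emod_eq_zero h3⟩
    · right
      rw [h3]
      rfl
    · right
      rw [h3]
      rfl
  rcases hsq T.1 with ⟨u1, u2⟩ | u1
  · rcases hsq T.2.1 with ⟨v1, v2⟩ | v1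
    · have h31 := h.2.2.2.2.isUnit_of_dvd' u2 v2
      exact absurd h31 (by decide)
    · omega
  · rcases hsq T.2.1 with ⟨v1, v2⟩ | v1
    · omega
    · omega

theorem base33 (T : ℤ × ℤ × ℤ) (hT : Init T) :
    ∃ e T', Fam33 e T' ∧ |(e : ℝ)| ≤ 4096 * (ht T : ℝ) ^ 6 ∧ Step 5 4096 T T' := by
  obtain ⟨h, ho⟩ := hT
  have g1 := mapG_good h ho
  have t1 := mapG_three h
  have s1 := mapG_step h ho
  have g2 := mapC_good g1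
  have t2 := mapC_three t1
  have s2 := mapC_step g1
  have st := s1.comp (by norm_num) (by norm_num) s2
  norm_num at st
  refine ⟨(mapC (mapG T)).2.2, mapC (mapG T), ⟨⟨g2, t2⟩, (mapG T).1, (mapG T).2.1, 1, rfl, rfl, ?_⟩,
    ?_, st⟩
  · ring
  · have hh' : (0 : ℝ) ≤ ht T := Nat.cast_nonneg _
    exact (abs_thd_le _).trans st.2.1

theorem step33 (e : ℤ) (T : ℤ × ℤ × ℤ) (hT : Fam33 e T) :
    ∃ e' T', Fam33 e' T' ∧ |(e' : ℝ)| ≤ 8 * |(e : ℝ)| ∧ Step 3 8 T T' := by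
  obtain ⟨⟨h, h3⟩, x, y, z, hx, hy, hz⟩ := hT
  refine ⟨e, mapE T, ⟨⟨mapE_good h h3, mapE_three h h3⟩,
    x * (T.2.1 + T.2.2), -y * (T.1 + T.2.2), z * (T.1 - T.2.1), ?_, ?_, ?_⟩, ?_, mapE_step h h3⟩
  · simp only [mapE]
    rw [mul_pow, ← hx]
  · simp only [mapE]
    rw [mul_pow, show (-y) ^ 3 = -y ^ 3 by ring, ← hy]
  · simp only [mapE]
    rw [mul_pow, ← mul_assoc, ← hz]
  · linarith [abs_nonneg (e : ℝ)]

end Pool.Agent.T2H21.NE
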