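import Pool.Agent.T2H21.NE.Basic

/-! The four maps of triples. -/

set_option autoImplicit false

namespace Pool.Agent.T2H21.NE

theorem R_mul_of_dvd {m n : ℕ} (h : n ∣ m) (hm : m ≠ 0) : R (m * n) = R m := by
  have hn : n ≠ 0 := fun h0 => hm (by subst h0; exact zero_dvd_iff.1 h)
  unfold R
  rw [Nat.primeFactors_mul hm hn, Finset.union_eq_left.2 (Nat.primeFactors_mono h hm)]

theorem abs_fst_le (T : ℤ × ℤ × ℤ) : |(T.1 : ℝ)| ≤ ht T := by
  rw [← Int.cast_abs, Int.abs_eq_natAbs, Int.cast_natCast]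
  exact_mod_cast le_max_left _ _

theorem abs_snd_le (T : ℤ × ℤ × ℤ) : |(T.2.1 : ℝ)| ≤ ht T := by
  rw [← Int.cast_abs, Int.abs_eq_natAbs, Int.cast_natCast]
  exact_mod_cast (le_max_left _ _).trans (le_max_right _ _)

theorem abs_thd_le (T : ℤ × ℤ × ℤ) : |(T.2.2 : ℝ)| ≤ ht T := by
  rw [← Int.cast_abs, Int.abs_eq_natAbs, Int.cast_natCast]
  exact_mod_cast (le_max_right _ _).trans (le_max_right _ _)

theorem ht_le {T : ℤ × ℤ × ℤ} {x : ℝ} (h1 : |(T.1 : ℝ)| ≤ x) (h2 : |(T.2.1 : ℝ)| ≤ x)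
    (h3 : |(T.2.2 : ℝ)| ≤ x) : (ht T : ℝ) ≤ x := by
  rw [← Int.cast_abs, Int.abs_eq_natAbs, Int.cast_natCast] at h1 h2 h3
  unfold ht
  push_cast
  exact max_le h1 (max_le h2 h3)

/-- the height is at most the sum of the first two members -/
theorem ht_le_add {T : ℤ × ℤ × ℤ} (h : Good T) : (ht T : ℝ) ≤ |(T.1 : ℝ)| + |(T.2.1 : ℝ)| := by
  refine ht_le (by linarith [abs_nonneg (T.2.1 : ℝ)]) (by linarith [abs_nonneg (T.1 : ℝ)]) ?_
  rw [← h.2.2.2.1]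
  push_cast
  exact abs_add_le _ _

theorem natAbs_cast (A : ℤ) : ((A.natAbs : ℕ) : ℝ) = |(A : ℝ)| := by
  rw [← Int.cast_abs, Int.abs_eq_natAbs, Int.cast_natCast]

/-- the radical of a product with a power -/
theorem R_mul_pow_le {m k : ℕ} {A : ℤ} (hA : A ≠ 0) : R (m * A.natAbs ^ k) ≤ R m * A.natAbs :=
  (R_mul_le _ _).trans (Nat.mul_le_mul_left _ ((R_pow_le _ _).trans (R_le (Int.natAbs_pos.2 hA))))

theorem IsCoprime.of_odd {A : ℤ} (h : Odd A) : IsCoprime A 2 := by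
  obtain ⟨k, rfl⟩ := h
  exact ⟨1, -k, by ring⟩

theorem coprime_three {A : ℤ} (h : ¬ (3 : ℤ) ∣ A) : IsCoprime A 3 := by
  have : IsCoprime (3 : ℤ) A := (Int.prime_three.coprime_iff_not_dvd).2 h
  exact this.symm

theorem Good.cop13 {T : ℤ × ℤ × ℤ} (h : Good T) : IsCoprime T.1 T.2.2 := by
  obtain ⟨-, -, -, h4, h5⟩ := h
  rw [← h4]
  have := h5.add_mul_left_right 1
  rwa [mul_one, add_comm] at this

theorem Good.cop23 {T : ℤ × ℤ × ℤ} (h : Good T) : IsCoprime T.2.1 T.2.2 := by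
  obtain ⟨-, -, -, h4, h5⟩ := h
  rw [← h4]
  have := h5.symm.add_mul_left_right 1
  rwa [mul_one] at this

/-! ### The map of degree two -/

/-- `(A, B, C) ↦ (C ^ 2, -4 A B, (A - B) ^ 2)` -/
def mapG (T : ℤ × ℤ × ℤ) : ℤ × ℤ × ℤ :=
  (T.2.2 ^ 2, -4 * T.1 * T.2.1, (T.1 - T.2.1) ^ 2)

theorem odd_sub {T : ℤ × ℤ × ℤ} (h : Good T) (ho : Odd T.2.2) : Odd (T.1 - T.2.1) := by
  have h4 := h.2.2.2.1
  rw [← h4] at ho
  rw [Int.odd_iff] at ho ⊢
  omega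

theorem sub_ne {T : ℤ × ℤ × ℤ} (h : Good T) (ho : Odd T.2.2) : T.1 - T.2.1 ≠ 0 := by
  intro h0
  have := odd_sub h ho
  rw [h0] at this
  exact absurd this (by decide)

theorem mapG_good {T : ℤ × ℤ × ℤ} (h : Good T) (ho : Odd T.2.2) : Good (mapG T) := by
  have hs := sub_ne h ho
  obtain ⟨h1, h2, h3, h4, h5⟩ := id h
  refine ⟨pow_ne_zero _ h3, by
    simp only [mapG]
    exact mul_ne_zero (mul_ne_zero (by norm_num) h1) h2, pow_ne_zero _ hs, ?_, ?_⟩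
  · simp only [mapG]
    rw [← h4]
    ring
  · simp only [mapG]
    refine IsCoprime.pow_left ?_
    refine IsCoprime.mul_right (IsCoprime.mul_right ?_ h.cop13.symm) h.cop23.symm
    have : IsCoprime T.2.2 (2 * 2) := (IsCoprime.of_odd ho).mul_right (IsCoprime.of_odd ho)
    have h6 := this.neg_right
    norm_num at h6 ⊢
    exact h6

theorem mapG_step {T : ℤ × ℤ × ℤ} (h : Good T) (ho : Odd T.2.2) : Step 1 8 T (mapG T) := by
  have hs := sub_ne h ho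
  have hsum := ht_le_add h
  obtain ⟨h1, h2, h3, h4, h5⟩ := id h
  have a1 := abs_fst_le T
  have a2 := abs_snd_le T
  have a3 := abs_thd_le T
  have hh : (0 : ℝ) ≤ ht T := Nat.cast_nonneg _
  have b1 : |((T.2.2 ^ 2 : ℤ) : ℝ)| ≤ ht (mapG T) := abs_fst_le (mapG T)
  have b3 : |(((T.1 - T.2.1) ^ 2 : ℤ) : ℝ)| ≤ ht (mapG T) := abs_thd_le (mapG T)
  have hsub : |((T.1 - T.2.1 : ℤ) : ℝ)| ≤ 2 * ht T := by
    push_cast
    calc |(T.1 : ℝ) - T.2.1| ≤ |(T.1 : ℝ)| + |(T.2.1 : ℝ)| := abs_sub _ _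
      _ ≤ _ := by linarith
  refine ⟨?_, ?_, ?_⟩
  · push_cast at b1 b3
    rw [abs_of_nonneg (by positivity)] at b1 b3
    have hc : (T.2.2 : ℝ) = T.1 + T.2.1 := by exact_mod_cast h4.symm
    rw [hc] at b1
    have e1 := sq_abs (T.1 : ℝ)
    have e2 := sq_abs (T.2.1 : ℝ)
    have hk : (ht T : ℝ) ^ 2 ≤ (|(T.1 : ℝ)| + |(T.2.1 : ℝ)|) ^ 2 := by gcongr
    have hq : (|(T.1 : ℝ)| + |(T.2.1 : ℝ)|) ^ 2 ≤ 2 * ((T.1 : ℝ) ^ 2 + (T.2.1 : ℝ) ^ 2) := by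
      nlinarith [sq_nonneg (|(T.1 : ℝ)| - |(T.2.1 : ℝ)|)]
    have hh' : (0 : ℝ) ≤ ht (mapG T) := Nat.cast_nonneg _
    have h12 : (ht T : ℝ) ^ (1 + 1) = (ht T : ℝ) ^ 2 := rfl
    rw [h12]
    nlinarith
  · have h12 : (ht T : ℝ) ^ (1 + 1) = (ht T : ℝ) ^ 2 := rfl
    rw [h12]
    refine ht_le ?_ ?_ ?_
    · simp only [mapG]
      push_cast
      rw [abs_pow]
      have : |(T.2.2 : ℝ)| ^ 2 ≤ (ht T : ℝ) ^ 2 := by gcongr
      nlinarith [sq_nonneg (ht T : ℝ)]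
    · simp only [mapG]
      push_cast
      rw [abs_mul, abs_mul, abs_neg, abs_of_pos (by norm_num : (0 : ℝ) < 4)]
      have : |(T.1 : ℝ)| * |(T.2.1 : ℝ)| ≤ (ht T : ℝ) * ht T := by gcongr
      nlinarith [sq_nonneg (ht T : ℝ)]
    · simp only [mapG]
      push_cast
      rw [abs_pow]
      push_cast at hsub
      have : |(T.1 : ℝ) - T.2.1| ^ 2 ≤ (2 * (ht T : ℝ)) ^ 2 := by gcongr
      nlinarith [sq_nonneg (ht T : ℝ)]
  · have hP : T.1 * T.2.1 * T.2.2 ≠ 0 := mul_ne_zero (mul_ne_zero h1 h2) h3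
    have e : ((mapG T).1 * (mapG T).2.1 * (mapG T).2.2).natAbs =
        ((T.1 * T.2.1 * T.2.2).natAbs * T.2.2.natAbs) * 4 * (T.1 - T.2.1).natAbs ^ 2 := by
      simp only [mapG, Int.natAbs_mul, Int.natAbs_pow, Int.natAbs_neg]
      rw [show (4 : ℤ).natAbs = 4 from rfl]
      ring
    have r1 : rad (mapG T) ≤ rad T * 4 * (T.1 - T.2.1).natAbs := by
      unfold rad
      rw [e]
      refine (R_mul_pow_le hs).trans (Nat.mul_le_mul_right _ ?_)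
      refine (R_mul_le _ _).trans ?_
      rw [R_mul_of_dvd (by rw [Int.natAbs_dvd_natAbs]; exact Dvd.intro_left _ rfl)
        (Int.natAbs_ne_zero.2 hP)]
      exact Nat.mul_le_mul_left _ (R_le (by norm_num))
    have hr : (0 : ℝ) ≤ rad T := Nat.cast_nonneg _
    calc (rad (mapG T) : ℝ) ≤ rad T * 4 * ((T.1 - T.2.1).natAbs : ℝ) := by exact_mod_cast r1
      _ ≤ rad T * 4 * (2 * ht T) := by
          rw [natAbs_cast]
          gcongr
      _ = _ := by ring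

/-! ### The map of degree three -/

/-- `(A, B, C) ↦ ((A + 4 B) ^ 3, -27 A ^ 2 B, C (A - 8 B) ^ 2)` -/
def mapF (T : ℤ × ℤ × ℤ) : ℤ × ℤ × ℤ :=
  ((T.1 + 4 * T.2.1) ^ 3, -27 * T.1 ^ 2 * T.2.1, T.2.2 * (T.1 - 8 * T.2.1) ^ 2)

theorem mapF_ne1 {T : ℤ × ℤ × ℤ} (ho : Odd T.1) : T.1 + 4 * T.2.1 ≠ 0 := by
  intro h0
  rw [Int.odd_iff] at ho
  omega

theorem mapF_ne2 {T : ℤ × ℤ × ℤ} (ho : Odd T.1) : T.1 - 8 * T.2.1 ≠ 0 := by
  intro h0
  rw [Int.odd_iff] at ho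
  omega

theorem mapF_good {T : ℤ × ℤ × ℤ} (h : Good T) (ho : Odd T.1) (h3' : ¬ (3 : ℤ) ∣ T.2.2) :
    Good (mapF T) := by
  obtain ⟨h1, h2, h3, h4, h5⟩ := id h
  refine ⟨pow_ne_zero _ (mapF_ne1 ho), ?_, mul_ne_zero h3 (pow_ne_zero _ (mapF_ne2 ho)), ?_, ?_⟩
  · simp only [mapF]
    exact mul_ne_zero (mul_ne_zero (by norm_num) (pow_ne_zero _ h1)) h2
  · simp only [mapF]
    rw [← h4]
    ring
  · simp only [mapF]
    refine IsCoprime.pow_left ?_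
    have c3 : IsCoprime (T.1 + 4 * T.2.1) 3 := by
      refine coprime_three fun hd => h3' ?_
      rw [← h4]
      omega
    have c27 : IsCoprime (T.1 + 4 * T.2.1) (-27) := by
      have := (c3.pow_right (n := 3)).neg_right
      norm_num at this
      exact this
    have cA : IsCoprime (T.1 + 4 * T.2.1) T.1 := by
      have c4 : IsCoprime (4 * T.2.1) T.1 := by
        refine IsCoprime.mul_left ?_ h5.symm
        have := ((IsCoprime.of_odd ho).mul_right (IsCoprime.of_odd ho)).symm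
        norm_num at this
        exact this
      have := c4.add_mul_left_left 1
      rw [mul_one, add_comm] at this
      exact this
    have cB : IsCoprime (T.1 + 4 * T.2.1) T.2.1 := by
      have := h5.add_mul_left_left 4
      rw [mul_comm T.2.1 4] at this
      exact this
    exact IsCoprime.mul_right (IsCoprime.mul_right c27 (cA.pow_right)) cB

/-- the inequality behind the lower bound for the height -/
theorem mapF_aux {x y u H k : ℝ} (hx : 0 ≤ x) (hy : 0 ≤ y) (hu : 0 ≤ u) (hsum : k ≤ x + y)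
    (hk : 0 ≤ k) (t2 : x ≤ u + 4 * y) (t1 : 4 * y ≤ u + x) (b1 : u ^ 3 ≤ H)
    (b2 : 27 * x ^ 2 * y ≤ H) : k ^ 3 ≤ 1215 * H := by
  have key : ∀ m : ℝ, 0 ≤ m → k ≤ 2 * m → m ^ 3 ≤ 64 * H → k ^ 3 ≤ 1215 * H := by
    intro m hm0 hm hmH
    have : k ^ 3 ≤ (2 * m) ^ 3 := by gcongr
    nlinarith [pow_nonneg hm0 3]
  rcases le_total x y with hxy | hxy
  · refine key y hy (by linarith) ?_
    have hu4 : y / 4 ≤ u := by linarith
    have : (y / 4) ^ 3 ≤ u ^ 3 := by gcongr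
    nlinarith
  · refine key x hx (by linarith) ?_
    rcases le_total (x / 4) u with hu4 | hu4
    · have : (x / 4) ^ 3 ≤ u ^ 3 := by gcongr
      nlinarith
    · have hy3 : 3 / 16 * x ≤ y := by linarith
      have : 27 * x ^ 2 * (3 / 16 * x) ≤ 27 * x ^ 2 * y := by gcongr
      nlinarith [pow_nonneg hx 3]

theorem abs_const_mul {c : ℝ} (hc : 0 ≤ c) (x : ℝ) : |c * x| = c * |x| := by
  rw [abs_mul, abs_of_nonneg hc]

theorem mapF_step {T : ℤ × ℤ × ℤ} (h : Good T) (ho : Odd T.1) : Step 2 1215 T (mapF T) := by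
  have hsum := ht_le_add h
  have n1 := mapF_ne1 ho (T := T)
  have n2 := mapF_ne2 ho (T := T)
  obtain ⟨h1, h2, h3, h4, h5⟩ := id h
  have a1 := abs_fst_le T
  have a2 := abs_snd_le T
  have a3 := abs_thd_le T
  have hh : (0 : ℝ) ≤ ht T := Nat.cast_nonneg _
  have b1 : |(((T.1 + 4 * T.2.1) ^ 3 : ℤ) : ℝ)| ≤ ht (mapF T) := abs_fst_le (mapF T)
  have b2 : |((-27 * T.1 ^ 2 * T.2.1 : ℤ) : ℝ)| ≤ ht (mapF T) := abs_snd_le (mapF T)
  have s1 : |((T.1 + 4 * T.2.1 : ℤ) : ℝ)| ≤ 5 * ht T := by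
    push_cast
    calc |(T.1 : ℝ) + 4 * T.2.1| ≤ |(T.1 : ℝ)| + |4 * (T.2.1 : ℝ)| := abs_add_le _ _
      _ = |(T.1 : ℝ)| + 4 * |(T.2.1 : ℝ)| := by rw [abs_const_mul (by norm_num)]
      _ ≤ _ := by linarith
  have s2 : |((T.1 - 8 * T.2.1 : ℤ) : ℝ)| ≤ 9 * ht T := by
    push_cast
    calc |(T.1 : ℝ) - 8 * T.2.1| ≤ |(T.1 : ℝ)| + |8 * (T.2.1 : ℝ)| := abs_sub _ _
      _ = |(T.1 : ℝ)| + 8 * |(T.2.1 : ℝ)| := by rw [abs_const_mul (by norm_num)]
      _ ≤ _ := by linarith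
  have hp : (0 : ℝ) ≤ (ht T : ℝ) ^ 3 := by positivity
  have h12 : (ht T : ℝ) ^ (2 + 1) = (ht T : ℝ) ^ 3 := rfl
  refine ⟨?_, ?_, ?_⟩
  · push_cast at b1 b2
    rw [abs_pow] at b1
    rw [abs_mul, abs_mul, abs_pow, abs_neg, abs_of_pos (by norm_num : (0 : ℝ) < 27)] at b2
    have t1 : 4 * |(T.2.1 : ℝ)| ≤ |(T.1 : ℝ) + 4 * T.2.1| + |(T.1 : ℝ)| := by
      have := abs_sub ((T.1 : ℝ) + 4 * T.2.1) (T.1 : ℝ)
      rwa [add_sub_cancel_left, abs_const_mul (by norm_num)] at this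
    have t2 : |(T.1 : ℝ)| ≤ |(T.1 : ℝ) + 4 * T.2.1| + 4 * |(T.2.1 : ℝ)| := by
      have := abs_sub ((T.1 : ℝ) + 4 * T.2.1) (4 * (T.2.1 : ℝ))
      rwa [add_sub_cancel_right, abs_const_mul (by norm_num)] at this
    rw [h12]
    exact mapF_aux (abs_nonneg _) (abs_nonneg _) (abs_nonneg _) hsum hh t2 t1 b1 b2
  · rw [h12]
    refine ht_le ?_ ?_ ?_
    · simp only [mapF]
      push_cast
      push_cast at s1
      rw [abs_pow]
      have : |(T.1 : ℝ) + 4 * T.2.1| ^ 3 ≤ (5 * (ht T : ℝ)) ^ 3 := by gcongr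
      nlinarith
    · simp only [mapF]
      push_cast
      rw [abs_mul, abs_mul, abs_pow, abs_neg, abs_of_pos (by norm_num : (0 : ℝ) < 27)]
      have : |(T.1 : ℝ)| ^ 2 * |(T.2.1 : ℝ)| ≤ (ht T : ℝ) ^ 2 * ht T := by gcongr
      nlinarith
    · simp only [mapF]
      push_cast
      push_cast at s2
      rw [abs_mul, abs_pow]
      have : |(T.2.2 : ℝ)| * |(T.1 : ℝ) - 8 * T.2.1| ^ 2 ≤ (ht T : ℝ) * (9 * (ht T : ℝ)) ^ 2 := by
        gcongr
      nlinarith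
  · have hP : T.1 * T.2.1 * T.2.2 ≠ 0 := mul_ne_zero (mul_ne_zero h1 h2) h3
    have e : ((mapF T).1 * (mapF T).2.1 * (mapF T).2.2).natAbs =
        ((T.1 * T.2.1 * T.2.2).natAbs * T.1.natAbs) * 27 * (T.1 + 4 * T.2.1).natAbs ^ 3 *
          (T.1 - 8 * T.2.1).natAbs ^ 2 := by
      simp only [mapF, Int.natAbs_mul, Int.natAbs_pow, Int.natAbs_neg]
      rw [show (27 : ℤ).natAbs = 27 from rfl]
      ring
    have r1 : rad (mapF T) ≤ rad T * 27 * (T.1 + 4 * T.2.1).natAbs * (T.1 - 8 * T.2.1).natAbs := by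
      unfold rad
      rw [e]
      refine (R_mul_pow_le n2).trans (Nat.mul_le_mul_right _ ?_)
      refine (R_mul_pow_le n1).trans (Nat.mul_le_mul_right _ ?_)
      refine (R_mul_le _ _).trans ?_
      rw [R_mul_of_dvd (by rw [Int.natAbs_dvd_natAbs, mul_assoc]; exact Dvd.intro _ rfl)
        (Int.natAbs_ne_zero.2 hP)]
      exact Nat.mul_le_mul_left _ (R_le (by norm_num))
    have hr : (0 : ℝ) ≤ rad T := Nat.cast_nonneg _
    calc (rad (mapF T) : ℝ) ≤ rad T * 27 * ((T.1 + 4 * T.2.1).natAbs : ℝ) *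
          ((T.1 - 8 * T.2.1).natAbs : ℝ) := by exact_mod_cast r1
      _ ≤ rad T * 27 * (5 * ht T) * (9 * ht T) := by
          rw [natAbs_cast, natAbs_cast]
          gcongr
      _ = _ := by ring

end Pool.Agent.T2H21.NE
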