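import Pool.Agent.T2H21.NE.Maps

/-! The map of degree four and the cubes. -/

set_option autoImplicit false

namespace Pool.Agent.T2H21.NE

/-! ### The map of degree four -/

/-- `(A, B, C) ↦ (A (B + C) ^ 3, -B (A + C) ^ 3, C (A - B) ^ 3)` -/
def mapE (T : ℤ × ℤ × ℤ) : ℤ × ℤ × ℤ :=
  (T.1 * (T.2.1 + T.2.2) ^ 3, -T.2.1 * (T.1 + T.2.2) ^ 3, T.2.2 * (T.1 - T.2.1) ^ 3)

theorem mapE_ne1 {T : ℤ × ℤ × ℤ} (h : Good T) (h3' : ¬ (3 : ℤ) ∣ T.1 - T.2.1) :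
    T.2.1 + T.2.2 ≠ 0 := by
  have h4 := h.2.2.2.1
  intro h0
  apply h3'
  omega

theorem mapE_ne2 {T : ℤ × ℤ × ℤ} (h : Good T) (h3' : ¬ (3 : ℤ) ∣ T.1 - T.2.1) :
    T.1 + T.2.2 ≠ 0 := by
  have h4 := h.2.2.2.1
  intro h0
  apply h3'
  omega

theorem mapE_ne3 {T : ℤ × ℤ × ℤ} (h3' : ¬ (3 : ℤ) ∣ T.1 - T.2.1) : T.1 - T.2.1 ≠ 0 := by
  intro h0
  apply h3'
  rw [h0]
  exact dvd_zero _

theorem mapE_good {T : ℤ × ℤ × ℤ} (h : Good T) (h3' : ¬ (3 : ℤ) ∣ T.1 - T.2.1) :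
    Good (mapE T) := by
  have n1 := mapE_ne1 h h3'
  have n2 := mapE_ne2 h h3'
  have n3 := mapE_ne3 h3'
  obtain ⟨h1, h2, h3, h4, h5⟩ := id h
  refine ⟨mul_ne_zero h1 (pow_ne_zero _ n1), mul_ne_zero (neg_ne_zero.2 h2) (pow_ne_zero _ n2),
    mul_ne_zero h3 (pow_ne_zero _ n3), ?_, ?_⟩
  · simp only [mapE]
    rw [← h4]
    ring
  · simp only [mapE]
    have cA : IsCoprime T.1 (T.1 + T.2.2) := by
      have := h.cop13.add_mul_left_right 1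
      rwa [mul_one, add_comm] at this
    have cB : IsCoprime (T.2.1 + T.2.2) T.2.1 := by
      have := h.cop23.add_mul_left_right 1
      rw [mul_one, add_comm] at this
      exact this.symm
    have c3 : IsCoprime (T.2.1 + T.2.2) 3 := by
      refine coprime_three fun hd => h3' ?_
      rw [← h4] at hd
      omega
    have cAB : IsCoprime (T.2.1 + T.2.2) (T.1 + T.2.2) := by
      have h6 : IsCoprime (T.2.1 + T.2.2) (3 * T.2.1) := c3.mul_right cB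
      obtain ⟨u, v, huv⟩ := h6
      refine ⟨u + 2 * v, -v, ?_⟩
      rw [← h4] at huv ⊢
      linear_combination huv
    refine IsCoprime.mul_left (IsCoprime.mul_right h5.neg_right (cA.pow_right)) ?_
    exact (IsCoprime.mul_right cB.neg_right (cAB.pow_right)).pow_left

theorem mapE_three {T : ℤ × ℤ × ℤ} (h : Good T) (h3' : ¬ (3 : ℤ) ∣ T.1 - T.2.1) :
    ¬ (3 : ℤ) ∣ (mapE T).1 - (mapE T).2.1 := by
  have h4 := h.2.2.2.1
  intro hd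
  simp only [mapE] at hd
  rw [← h4] at hd
  have e2 : T.1 * (T.2.1 + (T.1 + T.2.1)) ^ 3 - -T.2.1 * (T.1 + (T.1 + T.2.1)) ^ 3 =
      (T.1 - T.2.1) ^ 4 + 3 * (6 * T.1 ^ 3 * T.2.1 + 6 * T.1 ^ 2 * T.2.1 ^ 2 +
        6 * T.1 * T.2.1 ^ 3) := by ring
  rw [e2] at hd
  have hd4 : (3 : ℤ) ∣ (T.1 - T.2.1) ^ 4 := (Int.dvd_add_left (Dvd.intro _ rfl)).1 hd
  exact h3' (Int.prime_three.dvd_of_dvd_pow hd4)

/-- the inequality behind the lower bound for the height -/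
theorem mapE_aux {w u v P Q H : ℝ} (hw : 0 ≤ w) (hu : 0 ≤ u) (hv : 0 ≤ v) (hsum : w ≤ u + v)
    (hP : w ≤ P) (hQ : w ≤ Q) (b1 : u * P ^ 3 ≤ H) (b2 : v * Q ^ 3 ≤ H) : w ^ 4 ≤ 2 * H := by
  have h1 : u * w ^ 3 ≤ u * P ^ 3 := by gcongr
  have h2 : v * w ^ 3 ≤ v * Q ^ 3 := by gcongr
  have h3 : w * w ^ 3 ≤ (u + v) * w ^ 3 := by gcongr
  nlinarith

theorem two_sub_le {a b c : ℝ} (h : |b| ≤ |a|) (hc : c = 2 * a + b ∨ c = 2 * a - b ∨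
    c = b - 2 * a) : |a| ≤ |c| := by
  have h2 : |2 * a| = 2 * |a| := by rw [abs_mul, abs_of_pos (by norm_num : (0 : ℝ) < 2)]
  rcases hc with rfl | rfl | rfl
  · have := abs_sub (2 * a + b) b
    rw [add_sub_cancel_right, h2] at this
    linarith
  · have := abs_add_le (2 * a - b) b
    rw [sub_add_cancel, h2] at this
    linarith
  · have := abs_sub b (b - 2 * a)
    rw [sub_sub_cancel, h2] at this
    linarith

theorem mapE_step {T : ℤ × ℤ × ℤ} (h : Good T) (h3' : ¬ (3 : ℤ) ∣ T.1 - T.2.1) :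
    Step 3 8 T (mapE T) := by
  have n1 := mapE_ne1 h h3'
  have n2 := mapE_ne2 h h3'
  have n3 := mapE_ne3 h3'
  obtain ⟨h1, h2, h3, h4, h5⟩ := id h
  have a1 := abs_fst_le T
  have a2 := abs_snd_le T
  have a3 := abs_thd_le T
  have hh : (0 : ℝ) ≤ ht T := Nat.cast_nonneg _
  have b1 : |((T.1 * (T.2.1 + T.2.2) ^ 3 : ℤ) : ℝ)| ≤ ht (mapE T) := abs_fst_le (mapE T)
  have b2 : |((-T.2.1 * (T.1 + T.2.2) ^ 3 : ℤ) : ℝ)| ≤ ht (mapE T) := abs_snd_le (mapE T)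
  have b3 : |((T.2.2 * (T.1 - T.2.1) ^ 3 : ℤ) : ℝ)| ≤ ht (mapE T) := abs_thd_le (mapE T)
  have s1 : |((T.2.1 + T.2.2 : ℤ) : ℝ)| ≤ 2 * ht T := by
    push_cast
    exact (abs_add_le _ _).trans (by linarith)
  have s2 : |((T.1 + T.2.2 : ℤ) : ℝ)| ≤ 2 * ht T := by
    push_cast
    exact (abs_add_le _ _).trans (by linarith)
  have s3 : |((T.1 - T.2.1 : ℤ) : ℝ)| ≤ 2 * ht T := by
    push_cast
    exact (abs_sub _ _).trans (by linarith)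
  have hp : (0 : ℝ) ≤ (ht T : ℝ) ^ 4 := by positivity
  have h12 : (ht T : ℝ) ^ (3 + 1) = (ht T : ℝ) ^ 4 := rfl
  refine ⟨?_, ?_, ?_⟩
  · have hc : (T.2.2 : ℝ) = T.1 + T.2.1 := by exact_mod_cast h4.symm
    push_cast at b1 b2 b3
    rw [abs_mul, abs_pow] at b1 b2 b3
    rw [abs_neg] at b2
    rw [h12]
    have hH : (0 : ℝ) ≤ ht (mapE T) := Nat.cast_nonneg _
    have t3 : |(T.2.2 : ℝ)| ≤ |(T.1 : ℝ)| + |(T.2.1 : ℝ)| := by
      rw [hc]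
      exact abs_add_le _ _
    have t1 : |(T.1 : ℝ)| ≤ |(T.2.1 : ℝ)| + |(T.2.2 : ℝ)| := by
      have := abs_sub (T.2.2 : ℝ) (T.2.1 : ℝ)
      rw [show (T.2.2 : ℝ) - T.2.1 = T.1 by rw [hc]; ring] at this
      linarith
    have t2 : |(T.2.1 : ℝ)| ≤ |(T.1 : ℝ)| + |(T.2.2 : ℝ)| := by
      have := abs_sub (T.2.2 : ℝ) (T.1 : ℝ)
      rw [show (T.2.2 : ℝ) - T.1 = T.2.1 by rw [hc]; ring] at this
      linarith
    have hcase : (ht T : ℝ) = |(T.1 : ℝ)| ∨ (ht T : ℝ) = |(T.2.1 : ℝ)| ∨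
        (ht T : ℝ) = |(T.2.2 : ℝ)| := by
      rw [← natAbs_cast, ← natAbs_cast, ← natAbs_cast]
      have : ht T = T.1.natAbs ∨ ht T = T.2.1.natAbs ∨ ht T = T.2.2.natAbs := by
        unfold ht
        omega
      rcases this with h | h | h
      · exact Or.inl (by rw [h])
      · exact Or.inr (Or.inl (by rw [h]))
      · exact Or.inr (Or.inr (by rw [h]))
    rcases hcase with hcs | hcs | hcs
    · rw [hcs] at a2 a3 ⊢
      have := mapE_aux (abs_nonneg _) (abs_nonneg _) (abs_nonneg _) t1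
        (two_sub_le (c := (T.1 : ℝ) + T.2.2) a2 (Or.inl (by rw [hc]; ring)))
        (two_sub_le (c := (T.1 : ℝ) - T.2.1) a3 (Or.inr (Or.inl (by rw [hc]; ring)))) b2 b3
      linarith
    · rw [hcs] at a1 a3 ⊢
      have := mapE_aux (abs_nonneg _) (abs_nonneg _) (abs_nonneg _) t2
        (two_sub_le (c := (T.2.1 : ℝ) + T.2.2) a1 (Or.inl (by rw [hc]; ring)))
        (two_sub_le (c := (T.1 : ℝ) - T.2.1) a3 (Or.inr (Or.inr (by rw [hc]; ring)))) b1 b3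
      linarith
    · rw [hcs] at a1 a2 ⊢
      have := mapE_aux (abs_nonneg _) (abs_nonneg _) (abs_nonneg _) t3
        (two_sub_le (c := (T.2.1 : ℝ) + T.2.2) a1 (Or.inr (Or.inl (by rw [hc]; ring))))
        (two_sub_le (c := (T.1 : ℝ) + T.2.2) a2 (Or.inr (Or.inl (by rw [hc]; ring)))) b1 b2
      linarith
  · rw [h12]
    push_cast at s1 s2 s3
    refine ht_le ?_ ?_ ?_
    · simp only [mapE]
      push_cast
      rw [abs_mul, abs_pow]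
      calc |(T.1 : ℝ)| * |(T.2.1 : ℝ) + T.2.2| ^ 3 ≤ (ht T : ℝ) * (2 * (ht T : ℝ)) ^ 3 := by
            gcongr
        _ = _ := by ring
    · simp only [mapE]
      push_cast
      rw [abs_mul, abs_pow, abs_neg]
      calc |(T.2.1 : ℝ)| * |(T.1 : ℝ) + T.2.2| ^ 3 ≤ (ht T : ℝ) * (2 * (ht T : ℝ)) ^ 3 := by
            gcongr
        _ = _ := by ring
    · simp only [mapE]
      push_cast
      rw [abs_mul, abs_pow]
      calc |(T.2.2 : ℝ)| * |(T.1 : ℝ) - T.2.1| ^ 3 ≤ (ht T : ℝ) * (2 * (ht T : ℝ)) ^ 3 := by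
            gcongr
        _ = _ := by ring
  · have e : ((mapE T).1 * (mapE T).2.1 * (mapE T).2.2).natAbs =
        (T.1 * T.2.1 * T.2.2).natAbs * (T.2.1 + T.2.2).natAbs ^ 3 * (T.1 + T.2.2).natAbs ^ 3 *
          (T.1 - T.2.1).natAbs ^ 3 := by
      simp only [mapE, Int.natAbs_mul, Int.natAbs_pow, Int.natAbs_neg]
      ring
    have r1 : rad (mapE T) ≤ rad T * (T.2.1 + T.2.2).natAbs * (T.1 + T.2.2).natAbs *
        (T.1 - T.2.1).natAbs := by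
      unfold rad
      rw [e]
      refine (R_mul_pow_le n3).trans (Nat.mul_le_mul_right _ ?_)
      refine (R_mul_pow_le n2).trans (Nat.mul_le_mul_right _ ?_)
      exact R_mul_pow_le n1
    have hr : (0 : ℝ) ≤ rad T := Nat.cast_nonneg _
    calc (rad (mapE T) : ℝ) ≤ rad T * ((T.2.1 + T.2.2).natAbs : ℝ) * ((T.1 + T.2.2).natAbs : ℝ) *
          ((T.1 - T.2.1).natAbs : ℝ) := by exact_mod_cast r1
      _ ≤ rad T * (2 * ht T) * (2 * ht T) * (2 * ht T) := by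
          rw [natAbs_cast, natAbs_cast, natAbs_cast]
          gcongr
      _ = _ := by ring

/-! ### Cubes -/

/-- `(A, B, C) ↦ (A ^ 3, B ^ 3, C (A ^ 2 - A B + B ^ 2))` -/
def mapC (T : ℤ × ℤ × ℤ) : ℤ × ℤ × ℤ :=
  (T.1 ^ 3, T.2.1 ^ 3, T.2.2 * (T.1 ^ 2 - T.1 * T.2.1 + T.2.1 ^ 2))

theorem mapC_ne {T : ℤ × ℤ × ℤ} (h : Good T) : T.1 ^ 2 - T.1 * T.2.1 + T.2.1 ^ 2 ≠ 0 := by
  have h1 := h.1
  have : 0 < T.1 ^ 2 := by positivity
  nlinarith [sq_nonneg (T.1 - 2 * T.2.1)]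

theorem mapC_good {T : ℤ × ℤ × ℤ} (h : Good T) : Good (mapC T) := by
  have hn := mapC_ne h
  obtain ⟨h1, h2, h3, h4, h5⟩ := id h
  refine ⟨pow_ne_zero _ h1, pow_ne_zero _ h2, mul_ne_zero h3 hn, ?_, ?_⟩
  · simp only [mapC]
    rw [← h4]
    ring
  · simp only [mapC]
    exact h5.pow

theorem mapC_three {T : ℤ × ℤ × ℤ} (h3' : ¬ (3 : ℤ) ∣ T.1 - T.2.1) :
    ¬ (3 : ℤ) ∣ (mapC T).1 - (mapC T).2.1 := by
  intro hd
  simp only [mapC] at hd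
  have e2 : T.1 ^ 3 - T.2.1 ^ 3 = (T.1 - T.2.1) ^ 3 + 3 * (T.1 * T.2.1 * (T.1 - T.2.1)) := by ring
  rw [e2] at hd
  have hd4 : (3 : ℤ) ∣ (T.1 - T.2.1) ^ 3 := (Int.dvd_add_left (Dvd.intro _ rfl)).1 hd
  exact h3' (Int.prime_three.dvd_of_dvd_pow hd4)

theorem mapC_step {T : ℤ × ℤ × ℤ} (h : Good T) : Step 2 8 T (mapC T) := by
  have hn := mapC_ne h
  have hsum := ht_le_add h
  obtain ⟨h1, h2, h3, h4, h5⟩ := id h
  have a1 := abs_fst_le T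
  have a2 := abs_snd_le T
  have a3 := abs_thd_le T
  have hh : (0 : ℝ) ≤ ht T := Nat.cast_nonneg _
  have b1 : |((T.1 ^ 3 : ℤ) : ℝ)| ≤ ht (mapC T) := abs_fst_le (mapC T)
  have b2 : |((T.2.1 ^ 3 : ℤ) : ℝ)| ≤ ht (mapC T) := abs_snd_le (mapC T)
  have hp : (0 : ℝ) ≤ (ht T : ℝ) ^ 3 := by positivity
  have h12 : (ht T : ℝ) ^ (2 + 1) = (ht T : ℝ) ^ 3 := rfl
  have s1 : |((T.1 ^ 2 - T.1 * T.2.1 + T.2.1 ^ 2 : ℤ) : ℝ)| ≤ 3 * (ht T : ℝ) ^ 2 := by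
    push_cast
    have c1 : |(T.1 : ℝ)| ^ 2 ≤ (ht T : ℝ) ^ 2 := by gcongr
    have c2 : |(T.2.1 : ℝ)| ^ 2 ≤ (ht T : ℝ) ^ 2 := by gcongr
    have c3 : |(T.1 : ℝ)| * |(T.2.1 : ℝ)| ≤ (ht T : ℝ) * ht T := by gcongr
    calc |(T.1 : ℝ) ^ 2 - T.1 * T.2.1 + T.2.1 ^ 2|
        ≤ |(T.1 : ℝ) ^ 2 - T.1 * T.2.1| + |(T.2.1 : ℝ) ^ 2| := abs_add_le _ _
      _ ≤ (|(T.1 : ℝ) ^ 2| + |(T.1 : ℝ) * T.2.1|) + |(T.2.1 : ℝ) ^ 2| := by
          gcongr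
          exact abs_sub _ _
      _ = (|(T.1 : ℝ)| ^ 2 + |(T.1 : ℝ)| * |(T.2.1 : ℝ)|) + |(T.2.1 : ℝ)| ^ 2 := by
          rw [abs_pow, abs_pow, abs_mul]
      _ ≤ _ := by nlinarith
  refine ⟨?_, ?_, ?_⟩
  · push_cast at b1 b2
    rw [abs_pow] at b1 b2
    rw [h12]
    have hH : (0 : ℝ) ≤ ht (mapC T) := Nat.cast_nonneg _
    rcases le_total |(T.1 : ℝ)| |(T.2.1 : ℝ)| with hxy | hxy
    · have : (ht T : ℝ) ^ 3 ≤ (2 * |(T.2.1 : ℝ)|) ^ 3 := by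
        gcongr
        linarith
      nlinarith
    · have : (ht T : ℝ) ^ 3 ≤ (2 * |(T.1 : ℝ)|) ^ 3 := by
        gcongr
        linarith
      nlinarith
  · rw [h12]
    refine ht_le ?_ ?_ ?_
    · simp only [mapC]
      push_cast
      rw [abs_pow]
      have : |(T.1 : ℝ)| ^ 3 ≤ (ht T : ℝ) ^ 3 := by gcongr
      linarith
    · simp only [mapC]
      push_cast
      rw [abs_pow]
      have : |(T.2.1 : ℝ)| ^ 3 ≤ (ht T : ℝ) ^ 3 := by gcongr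
      linarith
    · simp only [mapC]
      rw [Int.cast_mul, abs_mul]
      calc |(T.2.2 : ℝ)| * |((T.1 ^ 2 - T.1 * T.2.1 + T.2.1 ^ 2 : ℤ) : ℝ)| ≤
            (ht T : ℝ) * (3 * (ht T : ℝ) ^ 2) := by gcongr
        _ ≤ _ := by nlinarith
  · have e : ((mapC T).1 * (mapC T).2.1 * (mapC T).2.2).natAbs =
        (T.1 * T.2.1 * T.2.2).natAbs * (T.1 ^ 2 * T.2.1 ^ 2).natAbs *
          (T.1 ^ 2 - T.1 * T.2.1 + T.2.1 ^ 2).natAbs ^ 1 := by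
      simp only [mapC, Int.natAbs_mul, Int.natAbs_pow]
      ring
    have hP : T.1 * T.2.1 * T.2.2 ≠ 0 := mul_ne_zero (mul_ne_zero h1 h2) h3
    have r1 : rad (mapC T) ≤ rad T * (T.1 ^ 2 - T.1 * T.2.1 + T.2.1 ^ 2).natAbs := by
      unfold rad
      rw [e]
      refine (R_mul_pow_le hn).trans (Nat.mul_le_mul_right _ ?_)
      have e2 : (T.1 * T.2.1 * T.2.2).natAbs * (T.1 ^ 2 * T.2.1 ^ 2).natAbs ∣
          (T.1 * T.2.1 * T.2.2).natAbs ^ 3 := by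
        rw [← Int.natAbs_mul, ← Int.natAbs_pow, Int.natAbs_dvd_natAbs]
        exact ⟨T.2.2 ^ 2, by ring⟩
      have e3 : (T.1 * T.2.1 * T.2.2).natAbs ^ 3 ≠ 0 := pow_ne_zero _ (Int.natAbs_ne_zero.2 hP)
      refine le_trans ?_ (R_pow_le _ 3)
      unfold R
      refine Finset.prod_le_prod_of_subset_of_one_le' (Nat.primeFactors_mono e2 e3) ?_
      intro p hp _
      exact (Nat.prime_of_mem_primeFactors hp).one_le
    have hr : (0 : ℝ) ≤ rad T := Nat.cast_nonneg _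
    calc (rad (mapC T) : ℝ) ≤ rad T * ((T.1 ^ 2 - T.1 * T.2.1 + T.2.1 ^ 2).natAbs : ℝ) := by
          exact_mod_cast r1
      _ ≤ rad T * (3 * (ht T : ℝ) ^ 2) := by
          rw [natAbs_cast]
          gcongr
      _ ≤ _ := by nlinarith [mul_nonneg hr (sq_nonneg (ht T : ℝ))]

end Pool.Agent.T2H21.NE
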