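import Pool.Agent.T2H21.NE.Families

/-! Transfer of the inequality along a map of large degree. -/

set_option autoImplicit false

namespace Pool.Agent.T2H21.NE

/-- the exponent reached by a map of large degree -/
theorem height_cond {E s : ℕ} {K δ h H e : ℝ} (hK : 1 ≤ K) (hδ : 0 < δ)
    (hEδ : (s + 1 : ℝ) ≤ (E + 1) * δ) (hh1 : 1 ≤ h) (hsm : K ^ (1 + δ) < h)
    (he : e ≤ K * h ^ s) (st1 : h ^ (E + 1) ≤ K * H) : e ≤ H ^ δ := by
  have hKpos : (0 : ℝ) < K := by linarith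
  have hhpos : (0 : ℝ) < h := by linarith
  have hH : h ^ (E + 1) / K ≤ H := by
    rw [div_le_iff₀ hKpos, mul_comm]
    exact st1
  calc e ≤ K * h ^ s := he
    _ = h ^ s * K ^ (1 + δ) / K ^ δ := by
        rw [Real.rpow_add hKpos, Real.rpow_one]
        have : (0 : ℝ) < K ^ δ := Real.rpow_pos_of_pos hKpos _
        field_simp
    _ ≤ h ^ s * h / K ^ δ := by gcongr
    _ = h ^ ((s : ℝ) + 1) / K ^ δ := by
        rw [Real.rpow_add hhpos, Real.rpow_one, Real.rpow_natCast]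
    _ ≤ h ^ ((E + 1 : ℝ) * δ) / K ^ δ := by
        gcongr
    _ = (h ^ (E + 1) / K) ^ δ := by
        rw [Real.div_rpow (by positivity) hKpos.le, Real.rpow_mul hhpos.le]
        congr 2
        rw [← Real.rpow_natCast]
        push_cast
        rfl
    _ ≤ H ^ δ := by
        gcongr

/-- the transfer of the inequality -/
theorem transfer_ineq {E : ℕ} {K δ ε : ℝ} (hK : 1 ≤ K) (hε : 0 < ε)
    (φ : ℤ × ℤ × ℤ → ℤ × ℤ × ℤ) (hφ : ∀ T, Init T → Step E K T (φ T))
    (hyp : ∃ κ : ℝ, ∀ T, Init T → K ^ (1 + δ) < ht T →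
      (ht (φ T) : ℝ) ≤ κ * (rad (φ T) : ℝ) ^ (1 + ε / (1 + (1 + ε) * E))) :
    ∃ κ : ℝ, ∀ T, Init T → (ht T : ℝ) ≤ κ * (rad T : ℝ) ^ (1 + ε) := by
  have hE0 : (0 : ℝ) ≤ E := Nat.cast_nonneg _
  set L : ℝ := 1 + (1 + ε) * E with hL
  have hLpos : 0 < L := by positivity
  obtain ⟨κ, hκ⟩ := hyp
  set ε' : ℝ := ε / L with hε'
  have hε'pos : 0 < ε' := by positivity
  have hεL : ε' * L = ε := by
    rw [hε']
    field_simp
  have hKpos : (0 : ℝ) < K := by linarith
  set κ' : ℝ := max κ 1 with hκ'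
  have hκ'1 : (1 : ℝ) ≤ κ' := le_max_right _ _
  set M : ℝ := L / (1 + E) with hM
  have hMpos : 0 < M := by positivity
  have hM1 : M * (1 - E * ε') = 1 := by
    have : L * (1 - E * ε') = 1 + E := by
      calc L * (1 - E * ε') = L - E * (ε' * L) := by ring
        _ = 1 + E := by
          rw [hεL, hL]
          ring
    rw [hM, div_mul_eq_mul_div, this]
    exact div_self (by positivity)
  have hM2 : M * (1 + ε') = 1 + ε := by
    have : L * (1 + ε') = (1 + ε) * (1 + E) := by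
      calc L * (1 + ε') = L + ε' * L := by ring
        _ = _ := by
          rw [hεL, hL]
          ring
    rw [hM, div_mul_eq_mul_div, this]
    exact mul_div_cancel_right₀ _ (by positivity)
  set c₁ : ℝ := Real.log K + Real.log κ' + (1 + ε') * Real.log K with hc₁
  refine ⟨max (K ^ (1 + δ)) (Real.exp (M * c₁)), ?_⟩
  intro T hT
  have st := hφ T hT
  have hh1 : (1 : ℝ) ≤ ht T := by exact_mod_cast ht_pos hT.1
  have hr1 : (1 : ℝ) ≤ rad T := by exact_mod_cast rad_pos T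
  have hr1' : (1 : ℝ) ≤ rad (φ T) := by exact_mod_cast rad_pos (φ T)
  have hhpos : (0 : ℝ) < ht T := by linarith
  have hrpos : (0 : ℝ) < rad T := by linarith
  have hrε : (1 : ℝ) ≤ (rad T : ℝ) ^ (1 + ε) := Real.one_le_rpow hr1 (by positivity)
  by_cases hsm : (ht T : ℝ) ≤ K ^ (1 + δ)
  · calc (ht T : ℝ) ≤ K ^ (1 + δ) * 1 := by rw [mul_one]; exact hsm
      _ ≤ max (K ^ (1 + δ)) (Real.exp (M * c₁)) * (rad T : ℝ) ^ (1 + ε) := by
          gcongr
          exact le_max_left _ _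
  · push Not at hsm
    obtain ⟨st1, st2, st3⟩ := st
    have hb := hκ T hT hsm
    have hb2 : (ht T : ℝ) ^ (E + 1) ≤
        K * (κ' * (K * (rad T * (ht T : ℝ) ^ E)) ^ (1 + ε')) := by
      calc (ht T : ℝ) ^ (E + 1) ≤ K * ht (φ T) := st1
        _ ≤ K * (κ * (rad (φ T) : ℝ) ^ (1 + ε')) := by gcongr
        _ ≤ K * (κ' * (rad (φ T) : ℝ) ^ (1 + ε')) := by
            gcongr
            exact le_max_left _ _
        _ ≤ _ := by gcongr
    have hlog := Real.log_le_log (by positivity) hb2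
    rw [Real.log_pow, Real.log_mul hKpos.ne' (by positivity), Real.log_mul (by positivity)
      (by positivity), Real.log_rpow (by positivity), Real.log_mul hKpos.ne' (by positivity),
      Real.log_mul hrpos.ne' (by positivity), Real.log_pow] at hlog
    push_cast at hlog
    set x := Real.log (ht T : ℝ) with hx
    set y := Real.log (rad T : ℝ) with hy
    have h1 : (1 - E * ε') * x ≤ c₁ + (1 + ε') * y := by
      rw [hc₁]
      nlinarith
    have h2 : x ≤ M * c₁ + (1 + ε) * y := by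
      calc x = M * (1 - E * ε') * x := by rw [hM1, one_mul]
        _ = M * ((1 - E * ε') * x) := by ring
        _ ≤ M * (c₁ + (1 + ε') * y) := by gcongr
        _ = M * c₁ + M * (1 + ε') * y := by ring
        _ = _ := by rw [hM2]
    calc (ht T : ℝ) = Real.exp x := (Real.exp_log hhpos).symm
      _ ≤ Real.exp (M * c₁ + (1 + ε) * y) := Real.exp_le_exp.2 h2
      _ = Real.exp (M * c₁) * (rad T : ℝ) ^ (1 + ε) := by
          rw [Real.exp_add, Real.rpow_def_of_pos hrpos, mul_comm y]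
      _ ≤ _ := by
          gcongr
          exact le_max_right _ _

/-- the number of triples of bounded height -/
theorem count_init (M : ℕ) : {T : ℤ × ℤ × ℤ | Init T ∧ ht T ≤ M}.Finite ∧
    {T : ℤ × ℤ × ℤ | Init T ∧ ht T ≤ M}.ncard ≤ (2 * M + 1) ^ 2 := by
  have hsub : {T : ℤ × ℤ × ℤ | Init T ∧ ht T ≤ M} ⊆
      (fun p : ℤ × ℤ => (p.1, p.2, p.1 + p.2)) '' (Set.Icc (-(M : ℤ)) M ×ˢ Set.Icc (-(M : ℤ)) M) := by
    rintro ⟨A, B, C⟩ ⟨⟨⟨-, -, -, h4, -⟩, -⟩, hM⟩
    simp only at h4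
    have h1 : A.natAbs ≤ M := (le_max_left _ _).trans hM
    have h2 : B.natAbs ≤ M := ((le_max_left _ _).trans (le_max_right _ _)).trans hM
    refine ⟨(A, B), ⟨⟨?_, ?_⟩, ⟨?_, ?_⟩⟩, by simp [h4]⟩ <;> simp only <;> omega
  have hfin : (Set.Icc (-(M : ℤ)) M ×ˢ Set.Icc (-(M : ℤ)) M).Finite :=
    (Set.finite_Icc _ _).prod (Set.finite_Icc _ _)
  refine ⟨(hfin.image _).subset hsub, ?_⟩
  calc {T : ℤ × ℤ × ℤ | Init T ∧ ht T ≤ M}.ncard
      ≤ ((fun p : ℤ × ℤ => (p.1, p.2, p.1 + p.2)) ''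
        (Set.Icc (-(M : ℤ)) M ×ˢ Set.Icc (-(M : ℤ)) M)).ncard :=
        Set.ncard_le_ncard hsub (hfin.image _)
    _ ≤ (Set.Icc (-(M : ℤ)) M ×ˢ Set.Icc (-(M : ℤ)) M).ncard := Set.ncard_image_le hfin
    _ = (2 * M + 1) ^ 2 := by
        rw [Set.ncard_prod, pow_two]
        have : (Set.Icc (-(M : ℤ)) M).ncard = 2 * M + 1 := by
          rw [← Finset.coe_Icc, Set.ncard_coe_finset, Int.card_Icc]
          omega
        rw [this]

/-! ### Positive triples -/

/-- the positive triple with the same members up to sign -/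
def pos (T : ℤ × ℤ × ℤ) : ℕ × ℕ × ℕ :=
  if T.1.natAbs + T.2.1.natAbs = T.2.2.natAbs then (T.1.natAbs, T.2.1.natAbs, T.2.2.natAbs)
  else if T.2.1.natAbs + T.2.2.natAbs = T.1.natAbs then (T.2.1.natAbs, T.2.2.natAbs, T.1.natAbs)
  else (T.1.natAbs, T.2.2.natAbs, T.2.1.natAbs)

theorem pos_spec {T : ℤ × ℤ × ℤ} (h : Good T) :
    0 < (pos T).1 ∧ 0 < (pos T).2.1 ∧ Nat.Coprime (pos T).1 (pos T).2.1 ∧
      (pos T).1 + (pos T).2.1 = (pos T).2.2 ∧ (pos T).2.2 = ht T ∧
      R ((pos T).1 * (pos T).2.1 * (pos T).2.2) = rad T ∧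
      [(pos T).1, (pos T).2.1, (pos T).2.2].Perm [T.1.natAbs, T.2.1.natAbs, T.2.2.natAbs] := by
  have c13 := h.cop13
  have c23 := h.cop23
  obtain ⟨h1, h2, h3, h4, h5⟩ := id h
  unfold pos
  split_ifs with ha hb
  · refine ⟨Int.natAbs_pos.2 h1, Int.natAbs_pos.2 h2, Int.isCoprime_iff_gcd_eq_one.1 h5, ha, ?_, ?_,
      List.Perm.refl _⟩
    · simp only [ht]
      omega
    · simp only [rad, Int.natAbs_mul]
  · refine ⟨Int.natAbs_pos.2 h2, Int.natAbs_pos.2 h3, Int.isCoprime_iff_gcd_eq_one.1 c23, hb, ?_, ?_,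
      ?_⟩
    · simp only [ht]
      omega
    · simp only [rad, Int.natAbs_mul]
      congr 1
      ring
    · simp only
      exact (List.perm_append_comm (l₁ := [T.1.natAbs])
        (l₂ := [T.2.1.natAbs, T.2.2.natAbs])).symm
  · have hc : T.1.natAbs + T.2.2.natAbs = T.2.1.natAbs := by omega
    refine ⟨Int.natAbs_pos.2 h1, Int.natAbs_pos.2 h3, Int.isCoprime_iff_gcd_eq_one.1 c13, hc, ?_, ?_,
      ?_⟩
    · simp only [ht]
      omega
    · simp only [rad, Int.natAbs_mul]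
      congr 1
      ring
    · simp only
      exact (List.Perm.swap _ _ _).cons _

end Pool.Agent.T2H21.NE
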